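import Pool.Agent.H53.ATP.Spec

/-!
# Asymptotic total positivity of Euler's triangle: Gaussian Hankel determinants
-/

set_option autoImplicit false

open MeasureTheory Filter Complex
open scoped Topology Real

namespace Pool.Agent.H54.ATP

open Pool.Agent.H53.ATP

theorem han_int (n : ℕ) : Integrable fun v : ℝ => v ^ n * Real.exp (-(v ^ 2 / 2)) := by
  have h0 : (0 : ℝ) ≤ n := n.cast_nonneg
  have h := integrable_rpow_mul_exp_neg_mul_sq (b := 1 / 2) (by norm_num) (s := (n : ℝ))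
    (by linarith)
  refine h.congr (Eventually.of_forall fun v => ?_)
  simp only [Real.rpow_natCast]
  congr 2
  ring

theorem han_sq {m : ℕ} (x : Fin m → ℝ) (v : ℝ) :
    (∑ i : Fin m, x i * v ^ (i : ℕ)) ^ 2 * Real.exp (-(v ^ 2 / 2)) =
      ∑ i : Fin m, ∑ j : Fin m, x i * x j * (v ^ ((i : ℕ) + (j : ℕ)) * Real.exp (-(v ^ 2 / 2))) := by
  rw [sq, Finset.sum_mul_sum, Finset.sum_mul]
  refine Finset.sum_congr rfl fun i _ => ?_
  rw [Finset.sum_mul]
  refine Finset.sum_congr rfl fun j _ => ?_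
  rw [pow_add]
  ring

theorem han_int2 {m : ℕ} (x : Fin m → ℝ) :
    Integrable fun v : ℝ => (∑ i : Fin m, x i * v ^ (i : ℕ)) ^ 2 * Real.exp (-(v ^ 2 / 2)) := by
  have h : Integrable fun v : ℝ => ∑ i : Fin m, ∑ j : Fin m,
      x i * x j * (v ^ ((i : ℕ) + (j : ℕ)) * Real.exp (-(v ^ 2 / 2))) :=
    integrable_finsetSum _ fun i _ => integrable_finsetSum _ fun j _ =>
      (han_int _).const_mul _
  refine h.congr (Eventually.of_forall fun v => ?_)
  exact (han_sq x v).symm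

theorem han_eq {m : ℕ} (x : Fin m → ℝ) :
    ∫ v : ℝ, (∑ i : Fin m, x i * v ^ (i : ℕ)) ^ 2 * Real.exp (-(v ^ 2 / 2)) =
      ∑ i : Fin m, ∑ j : Fin m, x i * x j *
        ∫ v : ℝ, v ^ ((i : ℕ) + (j : ℕ)) * Real.exp (-(v ^ 2 / 2)) := by
  have e : (fun v : ℝ => (∑ i : Fin m, x i * v ^ (i : ℕ)) ^ 2 * Real.exp (-(v ^ 2 / 2))) =
      fun v => ∑ i : Fin m, ∑ j : Fin m,
        x i * x j * (v ^ ((i : ℕ) + (j : ℕ)) * Real.exp (-(v ^ 2 / 2))) := by
    funext v
    exact han_sq x v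
  rw [e, integral_finsetSum _ fun i _ => integrable_finsetSum _ fun j _ =>
      (han_int _).const_mul _]
  refine Finset.sum_congr rfl fun i _ => ?_
  rw [integral_finsetSum _ fun j _ => (han_int _).const_mul _]
  refine Finset.sum_congr rfl fun j _ => ?_
  rw [integral_const_mul]

theorem han_ne {m : ℕ} {x : Fin m → ℝ} (hx : x ≠ 0) :
    ∃ v : ℝ, ∑ i : Fin m, x i * v ^ (i : ℕ) ≠ 0 := by
  by_contra hc
  push Not at hc
  apply hx
  have hp : (∑ i : Fin m, Polynomial.C (x i) * Polynomial.X ^ (i : ℕ) : Polynomial ℝ) = 0 := by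
    apply Polynomial.funext
    intro v
    rw [Polynomial.eval_finsetSum]
    simp only [Polynomial.eval_mul, Polynomial.eval_C, Polynomial.eval_pow, Polynomial.eval_X,
      Polynomial.eval_zero]
    exact hc v
  funext i
  have h := congrArg (fun p => Polynomial.coeff p (i : ℕ)) hp
  simp only [Polynomial.finsetSum_coeff, Polynomial.coeff_C_mul, Polynomial.coeff_X_pow,
    Polynomial.coeff_zero] at h
  rw [Finset.sum_eq_single i] at h
  · simpa using h
  · intro j _ hj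
    rw [if_neg, mul_zero]
    intro h2
    exact hj (Fin.ext h2.symm)
  · intro h2
    exact absurd (Finset.mem_univ i) h2

theorem han_pos {m : ℕ} {x : Fin m → ℝ} (hx : x ≠ 0) :
    0 < ∫ v : ℝ, (∑ i : Fin m, x i * v ^ (i : ℕ)) ^ 2 * Real.exp (-(v ^ 2 / 2)) := by
  rw [integral_pos_iff_support_of_nonneg (fun v => by positivity) (han_int2 x)]
  have hcont : Continuous fun v : ℝ =>
      (∑ i : Fin m, x i * v ^ (i : ℕ)) ^ 2 * Real.exp (-(v ^ 2 / 2)) := by fun_prop
  refine hcont.isOpen_support.measure_pos _ ?_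
  obtain ⟨v, hv⟩ := han_ne hx
  exact ⟨v, mul_ne_zero (pow_ne_zero 2 hv) (Real.exp_pos _).ne'⟩

theorem han : HanSt := by
  intro m
  refine Matrix.PosDef.det_pos (Matrix.PosDef.of_dotProduct_mulVec_pos ?_ fun x hx => ?_)
  · ext i j
    simp only [Matrix.conjTranspose_apply, Matrix.of_apply, star_trivial]
    rw [add_comm]
  · have e : star x ⬝ᵥ (Matrix.of (fun i j : Fin m =>
        (∫ v : ℝ, v ^ ((i : ℕ) + (j : ℕ)) * Real.exp (-(v ^ 2 / 2)) : ℝ))).mulVec x =
        ∫ v : ℝ, (∑ i : Fin m, x i * v ^ (i : ℕ)) ^ 2 * Real.exp (-(v ^ 2 / 2)) := by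
      rw [han_eq]
      simp only [dotProduct, Matrix.mulVec, Matrix.of_apply, Pi.star_apply, star_trivial]
      refine Finset.sum_congr rfl fun i _ => ?_
      rw [Finset.mul_sum]
      refine Finset.sum_congr rfl fun j _ => ?_
      ring
    rw [e]
    exact han_pos hx

end Pool.Agent.H54.ATP
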